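import Pool.Agent.H83.V.TW
import Pool.Agent.H54.LF.SEL

/-!
# Module WSE of the board lvw_modules: a component with infinitely many good scales
-/

set_option autoImplicit false

open MeasureTheory ProbabilityTheory Filter Topology Finset
open scoped Nat ENNReal

namespace Pool.Agent.H19.W

open Pool.Agent.H83.V
open Pool.Agent.H28.LF
open Pool.Agent.H24.T2 (Pset)
open Pool.Agent.H67.AG (avgP)
open Pool.Agent.H49.AG (er2_lim er2_meas)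
open Pool.Agent.H54.LF (sel_btY sel_flY sel_avg)

theorem pf_WSE (hD : T_DCC) (hM : T_SDM) (hN : T_WSD) (hB : T_SEB) : T_WSE := by
  classical
  intro PX P F κ hκM γ δ hPX hSys hF hFi hγ hδ hden hκ hComp S hS
  set B : ℕ → Set Xi := fun _ => ∅ with hBd
  have hBm : ∀ r, MeasurableSet (B r) := fun _ => MeasurableSet.empty
  have hBp : ∀ r, PX.real (B r) ≤ δ / (64 * 4 ^ r) := by
    intro r
    have h0 : PX.real (B r) = 0 := measureReal_empty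
    rw [h0]
    positivity
  have hprob := hSys.prob
  -- the scales
  have hm0 : ∀ i : ℕ, ∃ m₀ : ℕ, i ≤ m₀ ∧ 64 * ((i : ℝ) + 1) ^ 3 ≤ δ * 2 ^ m₀ := by
    intro i
    have ht : Tendsto (fun m : ℕ => δ * (2 : ℝ) ^ m) atTop atTop :=
      (tendsto_pow_atTop_atTop_of_one_lt (by norm_num)).const_mul_atTop hδ
    have := (ht.eventually (eventually_ge_atTop (64 * ((i : ℝ) + 1) ^ 3))).and
      (eventually_ge_atTop i)
    obtain ⟨m₀, h1, h2⟩ := this.exists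
    exact ⟨m₀, h2, h1⟩
  choose m₀ hm₀i hm₀ using hm0
  have hdcc : ∀ i : ℕ, ∃ (M : Finset ℕ) (wt : ℕ → ℝ),
      (∀ m ∈ M, m₀ i ≤ m ∧ (Pset 2 m).Nonempty ∧ 0 ≤ wt m) ∧ ∑ m ∈ M, wt m = 1 ∧
      ∀ (Ω : Type) [MeasurableSpace Ω] (κ : Measure Ω) [IsProbabilityMeasure κ] (T : Ω ≃ᵐ Ω)
        (a : Ω → Bool × Bool) (fl : ℕ → Set Ω), Ergodic T κ → Measurable a →
        (∀ p, MeasurableSet (fl p)) →
        (∀ p : ℕ, p.Prime → ∀ᵐ ω ∂κ, (ω ∈ fl p ↔ T^[p] ω ∈ fl p) ∧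
          ∃! i : ℕ, i < p ∧ T^[i] ω ∈ fl p) →
        ∀ B ⊆ M, (∀ m ∈ B, ¬ DcO T a fl i (1 / ((i : ℝ) + 1)) κ m) → ∑ m ∈ B, wt m ≤ δ / 16 :=
    fun i => hD (Bool × Bool) i (m₀ i) (1 / ((i : ℝ) + 1)) (δ / 16) (by positivity)
      (by positivity)
  choose M wt hM1 hM2 hM3 using hdcc
  set G : ℕ → ℕ → Set Yi := fun i m => {ω | γ ≤ avgP 2 m (sY F (κ ω))} ∩
    {ω | (∀ r : ℕ, avgP 2 m (fun p => p * (κ ω).real (flY p ∩ xiY p ⁻¹' (B r))) ≤ 1 / 2 ^ r) ∧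
      ∀ j : ℕ, 0 < j → j ≤ i →
        avgP 2 m (fun p => p * (κ ω).real (flY p ∩ ExY p j)) ≤ 1 / ((i : ℝ) + 1) ^ 2} with hGd
  set D : ℕ → ℕ → Set Yi := fun i m => {ω | DcO shY btY flY i (1 / ((i : ℝ) + 1)) (κ ω) m}
    with hDd
  have hsize : ∀ i, ∀ m ∈ M i, 64 * ((i : ℝ) + 1) ^ 3 ≤ δ * 2 ^ m := by
    intro i m hm
    refine (hm₀ i).trans (mul_le_mul_of_nonneg_left ?_ hδ.le)
    exact pow_le_pow_right₀ (by norm_num) (hM1 i m hm).1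
  have hGm : ∀ i, ∀ m ∈ M i, MeasurableSet (G i m) ∧ 7 * δ / 16 ≤ P.real (G i m) := by
    intro i m hm
    obtain ⟨a1, a2⟩ := hN PX P F κ γ δ m hPX hSys hF hFi hκ hComp (hM1 i m hm).2.1
      (hden m (hM1 i m hm).2.1)
    obtain ⟨b1, b2⟩ := hB PX P B κ δ i m hPX hSys hBm hBp hκ hδ (hM1 i m hm).2.1
      (hsize i m hm)
    refine ⟨a1.inter b1, ?_⟩
    have h4 := measureReal_union_add_inter (μ := P)
      (s := {ω | γ ≤ avgP 2 m (sY F (κ ω))}) b1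
    have h5 : P.real ({ω | γ ≤ avgP 2 m (sY F (κ ω))} ∪ {ω | (∀ r : ℕ,
      avgP 2 m (fun p => p * (κ ω).real (flY p ∩ xiY p ⁻¹' (B r))) ≤ 1 / 2 ^ r) ∧
      ∀ j : ℕ, 0 < j → j ≤ i →
        avgP 2 m (fun p => p * (κ ω).real (flY p ∩ ExY p j)) ≤ 1 / ((i : ℝ) + 1) ^ 2}) ≤ 1 :=
      measureReal_le_one
    rw [hGd]
    dsimp only
    linarith
  have hEP : ∀ i, δ / 4 ≤ P.real {ω | ∃ m ∈ M i, ω ∈ G i m ∧ ω ∈ D i m} := by
    intro i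
    refine sel_avg P (M i) (wt i) δ (fun m hm => (hM1 i m hm).2.2) (hM2 i) (G i) (D i)
      (fun m hm => (hGm i m hm).1) (fun m _ => hM κ i m _) (fun m hm => (hGm i m hm).2) hδ ?_
    filter_upwards [hComp] with ω hω Bs hBs hno
    have := hω.prob
    exact hM3 i Yi (κ ω) shY btY flY hω.erg sel_btY sel_flY (fun p hp => hω.per p hp.pos) Bs hBs
      hno
  have hEm : ∀ i, MeasurableSet {ω | ∃ m ∈ M i, ω ∈ G i m ∧ ω ∈ D i m} := by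
    intro i
    have : {ω | ∃ m ∈ M i, ω ∈ G i m ∧ ω ∈ D i m} = ⋃ m ∈ M i, (G i m ∩ D i m) := by
      ext ω
      simp only [Set.mem_ofPred_eq, Set.mem_iUnion, Set.mem_inter_iff, exists_prop]
    rw [this]
    exact Finset.measurableSet_biUnion _ fun m hm => (hGm i m hm).1.inter (hM κ i m _)
  have hlim : δ / 4 ≤ P.real {ω | ∃ᶠ i in atTop, ω ∈ {ω | ∃ m ∈ M i, ω ∈ G i m ∧ ω ∈ D i m}} :=
    er2_lim P (fun i => {ω | ∃ m ∈ M i, ω ∈ G i m ∧ ω ∈ D i m}) hEm (δ / 4) 0 fun i _ => hEP i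
  have hpos : P {ω | ∃ᶠ i in atTop, ω ∈ {ω | ∃ m ∈ M i, ω ∈ G i m ∧ ω ∈ D i m}} ≠ 0 := by
    intro h0
    rw [measureReal_def, h0, ENNReal.toReal_zero] at hlim
    linarith
  have hfr : ∃ᶠ ω in ae P,
      ω ∈ {ω | ∃ᶠ i in atTop, ω ∈ {ω | ∃ m ∈ M i, ω ∈ G i m ∧ ω ∈ D i m}} :=
    frequently_ae_iff.2 hpos
  obtain ⟨ω, hω, hωS⟩ := (hfr.and_eventually hS).exists
  refine ⟨ω, hωS, Filter.Frequently.mono hω fun i hi => ?_⟩
  obtain ⟨m, hm, hg, hd⟩ := hi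
  exact ⟨m,
    { le := (hm₀i i).trans (hM1 i m hm).1
      ne := (hM1 i m hm).2.1
      dens := by
        have h1 : γ ≤ avgP 2 m (sY F (κ ω)) := hg.1
        linarith
      bad := hg.2.1
      exc := hg.2.2
      dec := hd }⟩

end Pool.Agent.H19.W
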